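import Pool.Agent.Helper79.GL4.GoalsB

/-!
# GL4: SP4 (MP_27a5f8_al), the spread case with `m ≥ 3a` is impossible
-/

set_option linter.unusedVariables false

namespace GL4
namespace Spr4

open Module Submodule Polynomial

theorem deg_contra (F E : Type) [Field F] [Finite F] [Field E] [Algebra F E]
    [FiniteDimensional F E] (h3 : 3 ≤ finrank F E)
    (h : ∀ t : E, ∃ p : F[X], p ≠ 0 ∧ p.natDegree ≤ 2 ∧ aeval t p = 0) : False := by
  obtain ⟨α, hα⟩ := Field.exists_primitive_element F E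
  have h1 := (Field.primitive_element_iff_minpoly_natDegree_eq F α).1 hα
  obtain ⟨p, hp0, hp2, hp⟩ := h α
  have h2 := Polynomial.natDegree_le_of_dvd (minpoly.dvd F α hp) hp0
  omega

theorem quad_ne {F : Type} [Field F] (s r b : F) (hb : b = s + r - 1) :
    C s * X ^ 2 + C b * X + C r ≠ 0 := by
  intro hc
  have c2 := congrArg (fun p => coeff p 2) hc
  have c1 := congrArg (fun p => coeff p 1) hc
  have c0 := congrArg (fun p => coeff p 0) hc
  simp [coeff_X, coeff_C] at c2 c1 c0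
  rw [c2, c0, c1] at hb
  simp at hb

section
variable {F : Type} [Field F] {W : Type} [AddCommGroup W] [Module F W]

/-- a submodule of dimension one: two members are proportional -/
theorem prop_of_pt {U : Submodule F W} (h : Pt U) {v w : W} (hv : v ∈ U) (hw : w ∈ U)
    (hw0 : w ≠ 0) : ∃ c : F, v = c • w := by
  obtain ⟨z, hz, rfl⟩ := h.exists_span
  obtain ⟨a, rfl⟩ := mem_span_singleton.1 hv
  obtain ⟨b, rfl⟩ := mem_span_singleton.1 hw
  have hb : b ≠ 0 := by rintro rfl; simp at hw0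
  exact ⟨a * b⁻¹, by rw [smul_smul, mul_assoc, inv_mul_cancel₀ hb, mul_one]⟩

variable [FiniteDimensional F W] {a : ℕ} {B N D : Submodule F W → Submodule F W}

theorem symD (h : SG a B N D) {x y : Submodule F W} (hx : Pt x) (hy : Pt y) (hyx : N y ≤ D x) :
    N x ≤ D y := by
  refine le_of_pts fun z hz hzx => ?_
  refine h.memD y z hy hz fun w hw hwy => ?_
  exact h.symB z w hz hw ((hwy.trans hyx).trans (h.DB x z hx hz hzx))

/-- the key decomposition -/
theorem key (h : SG a B N D) {x y z : Submodule F W} (hx : Pt x) (hy : Pt y)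
    (hyx : N y ⊓ D x = ⊥) (hz : Pt z) (hzx : z ≤ N x) :
    Pt (N y ⊓ B z) ∧ B z = D x ⊔ (N y ⊓ B z) := by
  have hd := h.dimD x hx
  have hn := h.dimN y hy
  have hb := h.dimB z hz
  have hDB := h.DB x z hx hz hzx
  have h1 := Submodule.finrank_sup_add_finrank_inf_eq (N y) (D x)
  rw [hyx, finrank_bot] at h1
  have htop : N y ⊔ D x = ⊤ := Submodule.eq_top_of_finrank_eq (by omega)
  have h2 : B z = D x ⊔ (N y ⊓ B z) := by
    rw [← sup_inf_assoc_of_le (N y) hDB, sup_comm, htop, top_inf_eq]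
  refine ⟨?_, h2⟩
  have h3 := Submodule.finrank_sup_add_finrank_inf_eq (D x) (N y ⊓ B z)
  rw [← h2] at h3
  have h4 : D x ⊓ (N y ⊓ B z) = ⊥ := by
    rw [eq_bot_iff, ← hyx]
    exact le_inf (inf_le_right.trans inf_le_left) inf_le_left
  rw [h4, finrank_bot] at h3
  rw [Pt]
  omega

theorem symB' (h : SG a B N D) {u v : W} (hu : u ≠ 0) (hv : v ≠ 0) (huv : v ∈ B (F ∙ u)) :
    u ∈ B (F ∙ v) := by
  have := h.symB (F ∙ u) (F ∙ v) (pt_span hu) (pt_span hv)
    (by rwa [span_singleton_le_iff_mem])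
  rwa [span_singleton_le_iff_mem] at this

/-- claim (4) -/
theorem claim4 (h : SG a B N D) {x y : Submodule F W} (hx : Pt x) (hy : Pt y)
    (hyx : N y ⊓ D x = ⊥) (hxy : N x ⊓ D y = ⊥) (φ : N x →ₗ[F] N y)
    (hφs : Function.Surjective φ) (hφi : Function.Injective φ)
    (hφ : IsSpr N (N x) (N y) φ) (u : N x) (hu : u ≠ 0) :
    ∃ u₁ : N x, u₁ ≠ 0 ∧ (u₁ : W) ∈ B (F ∙ ((φ u : N y) : W)) ∧
      ((φ u₁ : N y) : W) ∈ B (F ∙ (u : W)) := by
  have hu0 : (u : W) ≠ 0 := fun hc => hu (Subtype.ext hc)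
  have hφu : φ u ≠ 0 := fun hc => hu (hφi (by rw [hc, map_zero]))
  have hφu0 : ((φ u : N y) : W) ≠ 0 := fun hc => hφu (Subtype.ext hc)
  -- N x ⊓ N y = ⊥ follows from `N x ≤ D x`
  have hNN : ∀ w : W, w ∈ N y → w ∈ D x → w = 0 := by
    intro w hw hw'
    have : w ∈ N y ⊓ D x := ⟨hw, hw'⟩
    rwa [hyx, mem_bot] at this
  have hz0 : (u : W) + ((φ u : N y) : W) ≠ 0 := by
    intro hc
    have h1 : ((φ u : N y) : W) = -(u : W) := by
      rw [eq_neg_iff_add_eq_zero, add_comm]; exact hc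
    apply hφu0
    refine hNN _ (φ u).2 ?_
    rw [h1]
    exact (D x).neg_mem (h.ND x hx u.2)
  set z : Submodule F W := F ∙ ((u : W) + ((φ u : N y) : W)) with hzdef
  have hz : Pt z := pt_span hz0
  have hzN : ∀ w : W, w ∈ N z ↔ ∃ u' : N x, w = u' + (φ u' : W) := hφ u hu
  have hpu : Pt (F ∙ (u : W)) := pt_span hu0
  have hpu' : F ∙ (u : W) ≤ N x := by rw [span_singleton_le_iff_mem]; exact u.2
  have hpv : Pt (F ∙ ((φ u : N y) : W)) := pt_span hφu0
  have hpv' : F ∙ ((φ u : N y) : W) ≤ N y := by rw [span_singleton_le_iff_mem]; exact (φ u).2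
  -- N x ⊓ D z = ⊥
  have hxz : N x ⊓ D z = ⊥ := by
    rcases h.dich z x hz hx with h1 | h1
    · exfalso
      have h2 := symD h hz hx h1
      have h3 : (u : W) + ((φ u : N y) : W) ∈ D x := h2 ((hzN _).2 ⟨u, rfl⟩)
      have h4 : (u : W) ∈ D x := h.ND x hx u.2
      have h5 : ((φ u : N y) : W) ∈ D x := by
        have := (D x).sub_mem h3 h4
        rwa [add_sub_cancel_left] at this
      exact hφu0 (hNN _ (φ u).2 h5)
    · exact h1
  have hzz : z ≤ N z := h.selfN z hz
  obtain ⟨hk1, -⟩ := key h hz hx hxz hz hzz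
  obtain ⟨hk2, -⟩ := key h hx hy hyx hpu hpu'
  obtain ⟨hk3, -⟩ := key h hy hx hxy hpv hpv'
  obtain ⟨u₁, hu₁, hu₁'⟩ := hk3.exists_span
  obtain ⟨v₁, hv₁, hv₁'⟩ := hk2.exists_span
  have hu₁m : u₁ ∈ N x ⊓ B (F ∙ ((φ u : N y) : W)) := by
    rw [hu₁']; exact mem_span_singleton_self _
  have hv₁m : v₁ ∈ N y ⊓ B (F ∙ (u : W)) := by
    rw [hv₁']; exact mem_span_singleton_self _
  -- both lie in B z
  have hu₁z : u₁ ∈ B z := by
    have e1 : (u : W) ∈ B (F ∙ u₁) := by
      apply symB' h hu0 hu₁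
      exact h.DB x _ hx hpu hpu' (h.ND x hx hu₁m.1)
    have e2 : ((φ u : N y) : W) ∈ B (F ∙ u₁) := symB' h hφu0 hu₁ hu₁m.2
    exact symB' h hu₁ hz0 ((B _).add_mem e1 e2)
  have hv₁z : v₁ ∈ B z := by
    have e1 : ((φ u : N y) : W) ∈ B (F ∙ v₁) := by
      apply symB' h hφu0 hv₁
      exact h.DB y _ hy hpv hpv' (h.ND y hy hv₁m.1)
    have e2 : (u : W) ∈ B (F ∙ v₁) := symB' h hu0 hv₁ hv₁m.2
    exact symB' h hv₁ hz0 ((B _).add_mem e2 e1)
  obtain ⟨u₂, hu₂⟩ := hφs ⟨v₁, hv₁m.1⟩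
  have hu₂0 : u₂ ≠ 0 := by
    rintro rfl
    rw [map_zero] at hu₂
    exact hv₁ (congrArg Subtype.val hu₂).symm
  have hu₂v : ((φ u₂ : N y) : W) = v₁ := by rw [hu₂]
  have hu₂z : (u₂ : W) ∈ B z := by
    have e1 : (u₂ : W) + ((φ u₂ : N y) : W) ∈ B z :=
      h.DB z z hz hz hzz (h.ND z hz ((hzN _).2 ⟨u₂, rfl⟩))
    have := (B z).sub_mem e1 (hu₂v ▸ hv₁z)
    rwa [add_sub_cancel_right] at this
  obtain ⟨c, hc⟩ := prop_of_pt hk1 (v := u₁) (w := (u₂ : W)) ⟨hu₁m.1, hu₁z⟩ ⟨u₂.2, hu₂z⟩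
    (fun hc => hu₂0 (Subtype.ext hc))
  refine ⟨⟨u₁, hu₁m.1⟩, fun hc => hu₁ (congrArg Subtype.val hc), hu₁m.2, ?_⟩
  have e : (⟨u₁, hu₁m.1⟩ : N x) = c • u₂ := Subtype.ext hc
  rw [e, map_smul, Submodule.coe_smul, hu₂v]
  exact (B _).smul_mem c hv₁m.2

end

end Spr4

open Module Submodule Polynomial Spr4

theorem sp4 (h3 : SP3) : SP4 := by
  intro F _ _ W _ _ _ a B N D h hgeo hm
  have ha3 := h.a3
  -- points
  obtain ⟨w0, hw0⟩ : ∃ w : W, w ≠ 0 := by
    have : 0 < finrank F W := by omega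
    have := Module.nontrivial_of_finrank_pos this
    exact exists_ne 0
  set x : Submodule F W := F ∙ w0 with hxdef
  have hx : Pt x := pt_span hw0
  obtain ⟨w1, hw1⟩ : ∃ w : W, w ∉ D x := by
    by_contra hc
    push Not at hc
    have h1 := h.dimD x hx
    have h2 : D x = ⊤ := eq_top_iff.2 (fun v _ => hc v)
    rw [h2, finrank_top] at h1
    omega
  have hw10 : w1 ≠ 0 := by rintro rfl; exact hw1 (zero_mem _)
  set y : Submodule F W := F ∙ w1 with hydef
  have hy : Pt y := pt_span hw10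
  have hyN : y ≤ N y := h.selfN y hy
  have hyx : N y ⊓ D x = ⊥ := by
    refine (h.dich x y hx hy).resolve_left fun hc => hw1 ?_
    exact hc (hyN (mem_span_singleton_self _))
  have hxy : N x ⊓ D y = ⊥ := by
    refine (h.dich y x hy hx).resolve_left fun hc => hw1 ?_
    exact symD h hy hx hc (hyN (mem_span_singleton_self _))
  have hne : N x ≠ N y := by
    intro hc
    apply hw1
    apply h.ND x hx
    rw [hc]
    exact hyN (mem_span_singleton_self _)
  obtain ⟨Th, φ₀, hTa, hcomm, hinv, hspr, htr⟩ := h3 F W a N (by omega) hm h.dimN h.selfN h.spr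
    hgeo x y hx hy hne
  -- base vector
  set e : N x := ⟨w0, h.selfN x hx (mem_span_singleton_self _)⟩ with hedef
  have he : e ≠ 0 := fun hc => hw0 (congrArg Subtype.val hc)
  have hne0 : ∀ t ∈ Th, t ≠ 0 → ∀ u : N x, u ≠ 0 → t u ≠ 0 := by
    intro t ht ht0 u hu hc
    obtain ⟨s, hs, hst⟩ := hinv t ht ht0
    apply hu
    have : (s * t) u = s (t u) := rfl
    rw [hst, hc, map_zero] at this
    exact this
  have hT0 : ∀ t ∈ Th, t e = 0 → t = 0 := by
    intro t ht hte
    by_contra hc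
    exact hne0 t ht hc e he hte
  have hcoe : ∀ u : N x, u ≠ 0 → (u : W) ≠ 0 := fun u hu hc => hu (Subtype.ext hc)
  have hcoe' : ∀ u : N y, u ≠ 0 → (u : W) ≠ 0 := fun u hu hc => hu (Subtype.ext hc)
  have hφ0 : ∀ u : N x, u ≠ 0 → φ₀ u ≠ 0 := fun u hu hc => hu (by
    rw [← map_zero φ₀] at hc; exact φ₀.injective hc)
  -- Step 1
  have step1 : ∃ t₁ ∈ Th, t₁ ≠ 0 ∧ ((φ₀ (t₁ e) : N y) : W) ∈ B (F ∙ (e : W)) := by
    obtain ⟨hk, -⟩ := key h hx hy hyx (pt_span (hcoe e he))
      (by rw [span_singleton_le_iff_mem]; exact e.2)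
    obtain ⟨v, hv, hv'⟩ := hk.exists_span
    have hvm : v ∈ N y ⊓ B (F ∙ (e : W)) := by rw [hv']; exact mem_span_singleton_self _
    obtain ⟨t₁, ht₁, ht₁e⟩ := htr e (φ₀.symm ⟨v, hvm.1⟩) he
    refine ⟨t₁, ht₁, ?_, ?_⟩
    · rintro rfl
      have h1 : (0 : N x) = φ₀.symm ⟨v, hvm.1⟩ := ht₁e
      have h2 := congrArg φ₀ h1
      rw [map_zero, LinearEquiv.apply_symm_apply] at h2
      exact hv (congrArg Subtype.val h2).symm
    · rw [ht₁e, LinearEquiv.apply_symm_apply]
      exact hvm.2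
  obtain ⟨t₁, ht₁, ht₁0, ht₁B⟩ := step1
  -- Step 2
  have step2 : ∀ t ∈ Th, t ≠ 0 → ∀ t' ∈ Th, t' * t = 1 →
      ((φ₀ (t₁ (t' e)) : N y) : W) ∈ B (F ∙ ((t e : N x) : W)) := by
    intro t ht ht0 t' ht' htt
    have ht'0 : t' ≠ 0 := by
      rintro rfl
      rw [zero_mul] at htt
      have := congrArg (fun f : Module.End F (N x) => f e) htt
      exact he this.symm
    have hr : t₁ * t' ∈ Th := Th.mul_mem ht₁ ht'
    have hr0 : t₁ * t' ≠ 0 := by
      intro hc
      have := congrArg (fun f : Module.End F (N x) => f e) hc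
      exact hne0 t₁ ht₁ ht₁0 (t' e) (hne0 t' ht' ht'0 e he) this
    have hte : t e ≠ 0 := hne0 t ht ht0 e he
    obtain ⟨s, hs, hsr⟩ := hinv _ hr hr0
    have hrs : (t₁ * t') * s = 1 := by rw [← hcomm s hs _ hr]; exact hsr
    obtain ⟨u₁, hu₁, hA, hB⟩ := claim4 h hx hy hyx hxy
      ((φ₀ : N x →ₗ[F] N y) ∘ₗ (t₁ * t'))
      (by
        intro v
        refine ⟨s (φ₀.symm v), ?_⟩
        have : (t₁ * t') (s (φ₀.symm v)) = φ₀.symm v := by
          have := congrArg (fun f : Module.End F (N x) => f (φ₀.symm v)) hrs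
          exact this
        change φ₀ ((t₁ * t') (s (φ₀.symm v))) = v
        rw [this, LinearEquiv.apply_symm_apply])
      (by
        intro v v' hvv
        have h1 : (t₁ * t') v = (t₁ * t') v' := φ₀.injective hvv
        have h2 := congrArg s h1
        have e1 : s ((t₁ * t') v) = v := congrArg (fun f : Module.End F (N x) => f v) hsr
        have e2 : s ((t₁ * t') v') = v' := congrArg (fun f : Module.End F (N x) => f v') hsr
        rwa [e1, e2] at h2)
      (hspr _ hr hr0) (t e) hte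
    have e1 : ((φ₀ : N x →ₗ[F] N y) ∘ₗ (t₁ * t')) (t e) = φ₀ (t₁ e) := by
      have : t' (t e) = e := congrArg (fun f : Module.End F (N x) => f e) htt
      change φ₀ (t₁ (t' (t e))) = _
      rw [this]
    rw [e1] at hA
    have hv0 : φ₀ (t₁ e) ≠ 0 := hφ0 _ (hne0 t₁ ht₁ ht₁0 e he)
    obtain ⟨hk, -⟩ := key h hy hx hxy (pt_span (hcoe' _ hv0))
      (by rw [span_singleton_le_iff_mem]; exact (φ₀ (t₁ e)).2)
    have heB : (e : W) ∈ B (F ∙ ((φ₀ (t₁ e) : N y) : W)) :=
      symB' h (hcoe e he) (hcoe' _ hv0) ht₁B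
    obtain ⟨c, hc⟩ := prop_of_pt hk (v := (e : W)) (w := (u₁ : W)) ⟨e.2, heB⟩ ⟨u₁.2, hA⟩
      (hcoe _ hu₁)
    have hc' : e = c • u₁ := Subtype.ext hc
    have e2 : φ₀ (t₁ (t' e)) = c • φ₀ (t₁ (t' u₁)) := by
      conv_lhs => rw [hc']
      rw [map_smul, map_smul, map_smul]
    rw [e2, Submodule.coe_smul]
    exact (B _).smul_mem c hB
  -- Step 3
  have step3 : ∀ t ∈ Th, t ≠ 0 → 1 + t ≠ 0 → ∃ s r : F,
      s • (t * t) + (s + r - 1) • t + r • (1 : Module.End F (N x)) = 0 := by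
    intro t ht ht0 ht1
    have h1t : 1 + t ∈ Th := Th.add_mem Th.one_mem ht
    obtain ⟨t', ht', htt⟩ := hinv t ht ht0
    obtain ⟨w, hw, hwt⟩ := hinv _ h1t ht1
    have hte : t e ≠ 0 := hne0 t ht ht0 e he
    have h1te : (1 + t) e ≠ 0 := hne0 _ h1t ht1 e he
    have hA := step2 t ht ht0 t' ht' htt
    have hB := step2 _ h1t ht1 w hw hwt
    have ht'0 : t' ≠ 0 := by
      rintro rfl
      rw [zero_mul] at htt
      have := congrArg (fun f : Module.End F (N x) => f e) htt
      exact he this.symm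
    have pe := pt_span (F := F) (hcoe e he)
    have pt := pt_span (F := F) (hcoe _ hte)
    have p1 := pt_span (F := F) (hcoe _ h1te)
    have hlin := h.linN x (F ∙ (e : W)) (F ∙ ((t e : N x) : W)) (F ∙ (((1 + t) e : N x) : W))
      hx pe pt p1 (by rw [span_singleton_le_iff_mem]; exact e.2)
      (by rw [span_singleton_le_iff_mem]; exact (t e).2)
      (by
        rw [span_singleton_le_iff_mem]
        have : (((1 + t) e : N x) : W) = (e : W) + ((t e : N x) : W) := rfl
        rw [this]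
        exact add_mem (mem_sup_left (mem_span_singleton_self _))
          (mem_sup_right (mem_span_singleton_self _)))
    obtain ⟨hk1, hk1'⟩ := key h hx hy hyx pe (by rw [span_singleton_le_iff_mem]; exact e.2)
    obtain ⟨hk2, hk2'⟩ := key h hx hy hyx pt (by rw [span_singleton_le_iff_mem]; exact (t e).2)
    have hmem := hlin hB
    rw [hk1', hk2'] at hmem
    obtain ⟨p, hp, q, hq, hpq⟩ := mem_sup.1 hmem
    obtain ⟨d1, hd1, v1, hv1, rfl⟩ := mem_sup.1 hp
    obtain ⟨d2, hd2, v2, hv2, rfl⟩ := mem_sup.1 hq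
    obtain ⟨s, hs⟩ := prop_of_pt hk1 hv1 (w := ((φ₀ (t₁ e) : N y) : W))
      ⟨(φ₀ (t₁ e)).2, ht₁B⟩ (hcoe' _ (hφ0 _ (hne0 t₁ ht₁ ht₁0 e he)))
    obtain ⟨r, hr⟩ := prop_of_pt hk2 hv2 (w := ((φ₀ (t₁ (t' e)) : N y) : W))
      ⟨(φ₀ (t₁ (t' e))).2, hA⟩
      (hcoe' _ (hφ0 _ (hne0 t₁ ht₁ ht₁0 _ (hne0 t' ht' ht'0 e he))))
    have hd : d1 + d2 = 0 := by
      have e1 : d1 + d2 ∈ D x := (D x).add_mem hd1 hd2
      have e2 : d1 + d2 = ((φ₀ (t₁ (w e)) : N y) : W) - v1 - v2 := by rw [← hpq]; abel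
      have e3 : d1 + d2 ∈ N y := by
        rw [e2]
        exact (N y).sub_mem ((N y).sub_mem (φ₀ (t₁ (w e))).2 hv1.1) hv2.1
      have : d1 + d2 ∈ N y ⊓ D x := ⟨e3, e1⟩
      rwa [hyx, mem_bot] at this
    have e4 : ((φ₀ (t₁ (w e)) : N y) : W) = v1 + v2 := by
      rw [← hpq]
      calc d1 + v1 + (d2 + v2) = (d1 + d2) + (v1 + v2) := by abel
        _ = v1 + v2 := by rw [hd, zero_add]
    have e5 : φ₀ (t₁ (w e)) = φ₀ (t₁ ((s • (1 : Module.End F (N x)) + r • t') e)) := by
      apply Subtype.ext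
      rw [e4, hs, hr]
      have : (s • (1 : Module.End F (N x)) + r • t') e = s • e + r • (t' e) := rfl
      rw [this, map_add, map_smul, map_smul, map_add, map_smul, map_smul]
      rfl
    have e6 : w = s • (1 : Module.End F (N x)) + r • t' := by
      have hm1 : w - (s • (1 : Module.End F (N x)) + r • t') ∈ Th :=
        Th.sub_mem hw (Th.add_mem (Th.smul_mem Th.one_mem s) (Th.smul_mem ht' r))
      have e7 : t₁ ((w - (s • (1 : Module.End F (N x)) + r • t')) e) = 0 := by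
        have e8 := φ₀.injective e5
        rw [LinearMap.sub_apply, map_sub, e8, sub_self]
      have e9 : (w - (s • (1 : Module.End F (N x)) + r • t')) e = 0 := by
        by_contra hc
        exact hne0 t₁ ht₁ ht₁0 _ hc e7
      exact sub_eq_zero.1 (hT0 _ hm1 e9)
    refine ⟨s, r, ?_⟩
    have htt' : t * t' = 1 := by rw [hcomm t ht t' ht']; exact htt
    have e10 : t * (w * (1 + t)) = t := by rw [hwt, mul_one]
    rw [e6] at e10
    have e11 : t * ((s • (1 : Module.End F (N x)) + r • t') * (1 + t)) =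
        s • t + r • 1 + s • (t * t) + r • t := by
      have : t * ((s • (1 : Module.End F (N x)) + r • t') * (1 + t)) =
        s • t + r • (t * t') + s • (t * t) + r • ((t * t') * t) := by
        rw [← mul_assoc, mul_add t, mul_smul_comm, mul_smul_comm, mul_one, add_mul, mul_add,
          mul_add, mul_one, mul_one, smul_mul_assoc, smul_mul_assoc]
        abel
      rw [this, htt', one_mul]
    rw [e11] at e10
    have : s • (t * t) + (s + r - 1) • t + r • (1 : Module.End F (N x)) =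
      (s • t + r • 1 + s • (t * t) + r • t) - t := by
      module
    rw [this, e10, sub_self]
  -- the field
  have hTnt : Nontrivial Th := by
    refine ⟨⟨0, 1, fun hc => ?_⟩⟩
    have : (0 : Module.End F (N x)) = 1 := congrArg Subtype.val hc
    have := congrArg (fun f : Module.End F (N x) => f e) this
    exact he this.symm
  letI instCR : CommRing Th :=
    { (inferInstance : Ring Th) with
      mul_comm := fun s t => Subtype.ext (hcomm s.1 s.2 t.1 t.2) }
  have hF : IsField Th :=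
    { exists_pair_ne := ⟨0, 1, zero_ne_one⟩
      mul_comm := fun s t => Subtype.ext (hcomm s.1 s.2 t.1 t.2)
      mul_inv_cancel := by
        intro t ht
        have ht0 : (t : Module.End F (N x)) ≠ 0 := fun hc => ht (Subtype.ext hc)
        obtain ⟨s, hs, hst⟩ := hinv t.1 t.2 ht0
        exact ⟨⟨s, hs⟩, Subtype.ext ((hcomm _ t.2 _ hs).trans hst)⟩ }
  letI instF : Field Th := hF.toField
  haveI : FiniteDimensional F Th := by
    apply FiniteDimensional.of_finrank_pos
    omega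
  refine deg_contra F Th (by omega) ?_
  intro t
  by_cases ht0 : t = 0
  · refine ⟨X, X_ne_zero, by rw [natDegree_X]; omega, ?_⟩
    rw [aeval_X, ht0]
  · by_cases ht1 : 1 + t = 0
    · refine ⟨X + C 1, X_add_C_ne_zero 1, by rw [natDegree_X_add_C]; omega, ?_⟩
      rw [map_add, aeval_X, aeval_C, map_one, add_comm]
      exact ht1
    · obtain ⟨s, r, hsr⟩ := step3 t.1 t.2 (fun hc => ht0 (Subtype.ext hc))
        (fun hc => ht1 (Subtype.ext hc))
      refine ⟨C s * X ^ 2 + C (s + r - 1) * X + C r, quad_ne s r _ rfl, natDegree_quadratic_le, ?_⟩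
      · apply Subtype.ext
        rw [map_add, map_add, map_mul, map_mul, map_pow, aeval_X, aeval_C, aeval_C, aeval_C]
        have a1 : ∀ (c : F) (u : Th), ((algebraMap F Th c * u : Th) : Module.End F (N x)) =
            c • (u : Module.End F (N x)) := by
          intro c u
          have : algebraMap F Th c * u = c • u := (Algebra.smul_def c u).symm
          rw [this]; rfl
        have a2 : ((algebraMap F Th r : Th) : Module.End F (N x)) =
            r • (1 : Module.End F (N x)) := by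
          have := a1 r 1
          rw [mul_one] at this
          rw [this]; rfl
        have a3 : ((algebraMap F Th s * t ^ 2 + algebraMap F Th (s + r - 1) * t +
            algebraMap F Th r : Th) : Module.End F (N x)) =
            ((algebraMap F Th s * t ^ 2 : Th) : Module.End F (N x)) +
            ((algebraMap F Th (s + r - 1) * t : Th) : Module.End F (N x)) +
            ((algebraMap F Th r : Th) : Module.End F (N x)) := rfl
        rw [a3, a1, a1, a2, pow_two]
        exact hsr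

end GL4
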